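import Pool.Agent.helper25.TW.Spec

set_option autoImplicit false

namespace TP.TW

open DP MeasureTheory Finset

private instance BKM_prob : IsProbabilityMeasure P1 := by
  unfold P1
  infer_instance

private lemma BKM_mono {F G : Set (V → Bool)} (h : F ⊆ G) : Pr F ≤ Pr G := measureReal_mono h

private lemma BKM_nonneg (F : Set (V → Bool)) : 0 ≤ Pr F := measureReal_nonneg

private lemma BKM_one (F : Set (V → Bool)) : Pr F ≤ 1 := measureReal_le_one

/-- The ends of a crossing. -/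
def BKM_E (o : Bool) (a b d e : ℤ) (u v : V) : Prop := if o then u.2 = d ∧ v.2 = e else u.1 = a ∧ v.1 = b

theorem BKM_box (a b d e : ℤ) : ∃ Λ : Finset V, ∀ w, w ∈ Λ ↔ w ∈ rect a b d e := by
  refine ⟨Finset.Icc a b ×ˢ Finset.Icc d e, fun w => ?_⟩
  rw [Finset.mem_product, Finset.mem_Icc, Finset.mem_Icc]
  constructor
  · rintro ⟨⟨h1, h2⟩, h3, h4⟩
    exact ⟨h1, h2, h3, h4⟩
  · rintro ⟨h1, h2, h3, h4⟩
    exact ⟨⟨h1, h2⟩, h3, h4⟩

theorem BKM_step (bbk : Bbk_stmt) (o k : Bool) (a b d e : ℤ) (m : ℕ) :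
    Pr (Ev fun c => many o c k a b d e (m + 1)) ≤
      Pr (Ev fun c => crs o c k Set.univ a b d e) * Pr (Ev fun c => many o c k a b d e m) := by
  classical
  obtain ⟨Λ, hΛ⟩ := BKM_box a b d e
  let D : Set (Finset V) := {K | K ⊆ Λ ∧ ∃ u v : V, BKM_E o a b d e u v ∧ Con (K : Set V) u v}
  let D' : Set (Finset V) := {L | L ⊆ Λ ∧ ∃ M : ℕ → Finset V, (∀ i < m, M i ⊆ L ∧ M i ∈ D) ∧
    ∀ i < m, ∀ j < m, i ≠ j → BDis (M i : Set V) (M j : Set V)}
  have hmain := bbk k Λ D D' Set.univ (fun K hK => hK.1) (fun K hK => hK.1) (Loc.univ _)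
    (fun _ _ _ _ => Set.mem_univ _)
  rw [Set.univ_inter, Set.univ_inter] at hmain
  refine (BKM_mono ?_).trans (hmain.trans (mul_le_mul (BKM_mono ?_) (BKM_mono ?_) (BKM_nonneg _) (BKM_nonneg _)))
  · intro β hβ
    obtain ⟨L, hL1, hL2⟩ := hβ
    let Kf : ℕ → Finset V := fun i => Λ.filter fun w => w ∈ L i ∧ col β w = k
    have hKf : ∀ i, (Kf i : Set V) = {w | w ∈ rect a b d e ∩ L i ∧ col β w = k} := by
      intro i
      ext w
      simp only [Kf, Finset.coe_filter, Set.mem_ofPred_eq, Set.mem_inter_iff]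
      rw [hΛ]
      tauto
    have hKD : ∀ i < m + 1, Kf i ∈ D := by
      intro i hi
      obtain ⟨u, v, h1, h2⟩ := hL1 i hi
      refine ⟨Finset.filter_subset _ _, u, v, h1, ?_⟩
      rw [hKf]
      exact h2
    have hKB : ∀ i < m + 1, ∀ j < m + 1, i ≠ j → BDis (Kf i : Set V) (Kf j : Set V) := by
      intro i hi j hj hij
      refine (hL2 i hi j hj hij).mono ?_ ?_
      · rw [hKf]
        exact fun w hw => hw.1.2
      · rw [hKf]
        exact fun w hw => hw.1.2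
    have hKc : ∀ i, ∀ v ∈ Kf i, col β v = k := fun i v hv => (Finset.mem_filter.mp hv).2.2
    refine ⟨Kf 0, hKD 0 (by omega), (Finset.range m).biUnion (fun i => Kf (i + 1)), ⟨?_, fun i => Kf (i + 1), ?_, ?_⟩,
      ?_, hKc 0, ?_⟩
    · intro w hw
      obtain ⟨i, _, hi⟩ := Finset.mem_biUnion.mp hw
      exact (Finset.mem_filter.mp hi).1
    · intro i hi
      exact ⟨fun w hw => Finset.mem_biUnion.mpr ⟨i, Finset.mem_range.mpr hi, hw⟩, hKD (i + 1) (by omega)⟩
    · intro i hi j hj hij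
      exact hKB (i + 1) (by omega) (j + 1) (by omega) (by omega)
    · intro v hv w hw
      obtain ⟨i, hi, hi'⟩ := Finset.mem_biUnion.mp (Finset.mem_coe.mp hw)
      exact hKB 0 (by omega) (i + 1) (by have := Finset.mem_range.mp hi; omega) (by omega) v hv w (Finset.mem_coe.mpr hi')
    · intro v hv
      obtain ⟨i, hi, hi'⟩ := Finset.mem_biUnion.mp hv
      exact hKc _ v hi'
  · intro β hβ
    obtain ⟨K, ⟨hK1, u, v, hE, hC⟩, hK2⟩ := hβ
    refine ⟨u, v, hE, hC.mono ?_⟩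
    intro w hw
    exact ⟨⟨(hΛ w).mp (hK1 hw), Set.mem_univ _⟩, hK2 w hw⟩
  · intro β hβ
    obtain ⟨L, ⟨hL1, M, hM1, hM2⟩, hL2⟩ := hβ
    refine ⟨fun i => (M i : Set V), ?_, hM2⟩
    intro i hi
    obtain ⟨h1, h2, u, v, hE, hC⟩ := hM1 i hi
    refine ⟨u, v, hE, hC.mono ?_⟩
    intro w hw
    exact ⟨⟨(hΛ w).mp (h2 hw), hw⟩, hL2 w (h1 hw)⟩

theorem BKM (_lcr : LCR_stmt) (bbk : Bbk_stmt) : BKM_stmt := by
  intro o k a b d e m
  induction m with
  | zero =>
    rw [pow_zero]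
    exact BKM_one _
  | succ m ih =>
    rw [pow_succ']
    exact (BKM_step bbk o k a b d e m).trans (mul_le_mul_of_nonneg_left ih (BKM_nonneg _))

end TP.TW
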